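import Pool.Agent.helper96.PP2.SpecC

/-!
# Row pg:POW: powers modulo p
-/

namespace Pool.Agent.PP2

open Matrix

section

variable {R : Type} [CommRing R]

/-- Matrices `α + β X` with `α`, `β` in `C`. -/
def POW_P (C : Subring R) (X M : M2 R) : Prop :=
  ∃ α ∈ C, ∃ β ∈ C, M = α • (1 : M2 R) + β • X

theorem POW_one (C : Subring R) (X : M2 R) : POW_P C X 1 :=
  ⟨1, C.one_mem, 0, C.zero_mem, by simp⟩

theorem POW_zero (C : Subring R) (X : M2 R) : POW_P C X 0 :=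
  ⟨0, C.zero_mem, 0, C.zero_mem, by simp⟩

theorem POW_add (C : Subring R) (X M N : M2 R) (hM : POW_P C X M) (hN : POW_P C X N) :
    POW_P C X (M + N) := by
  obtain ⟨a, ha, b, hb, rfl⟩ := hM
  obtain ⟨c, hc, d, hd, rfl⟩ := hN
  refine ⟨a + c, C.add_mem ha hc, b + d, C.add_mem hb hd, ?_⟩
  rw [add_smul, add_smul]
  abel

theorem POW_mul (C : Subring R) (X M N : M2 R) (q : R) (hq : q ∈ C)
    (hX : X * X = q • (1 : M2 R)) (hM : POW_P C X M) (hN : POW_P C X N) :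
    POW_P C X (M * N) := by
  obtain ⟨a, ha, b, hb, rfl⟩ := hM
  obtain ⟨c, hc, d, hd, rfl⟩ := hN
  refine ⟨a * c + b * d * q, C.add_mem (C.mul_mem ha hc) (C.mul_mem (C.mul_mem hb hd) hq),
    a * d + b * c, C.add_mem (C.mul_mem ha hd) (C.mul_mem hb hc), ?_⟩
  rw [add_mul, mul_add, mul_add]
  simp only [Matrix.smul_mul, Matrix.mul_smul, one_mul, mul_one, hX, smul_smul]
  simp only [add_smul]
  rw [show c * b = b * c by ring, show c * a = a * c by ring, show d * a = a * d by ring,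
    show d * (b * q) = b * d * q by ring]
  abel

theorem POW_pow (C : Subring R) (X M : M2 R) (q : R) (hq : q ∈ C)
    (hX : X * X = q • (1 : M2 R)) (hM : POW_P C X M) (n : ℕ) : POW_P C X (M ^ n) := by
  induction n with
  | zero => rw [pow_zero]; exact POW_one C X
  | succ n ih => rw [pow_succ]; exact POW_mul C X _ _ q hq hX ih hM

theorem POW_sum (C : Subring R) (X : M2 R) (s : Finset ℕ) (f : ℕ → M2 R)
    (hf : ∀ k ∈ s, POW_P C X (f k)) : POW_P C X (∑ k ∈ s, f k) := by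
  classical
  induction s using Finset.induction_on with
  | empty => rw [Finset.sum_empty]; exact POW_zero C X
  | insert a s ha ih =>
    rw [Finset.sum_insert ha]
    exact POW_add C X _ _ (hf a (Finset.mem_insert_self a s))
      (ih fun k hk => hf k (Finset.mem_insert_of_mem hk))

theorem POW_cast (C : Subring R) (X : M2 R) (k : ℕ) : POW_P C X (k : M2 R) := by
  induction k with
  | zero => rw [Nat.cast_zero]; exact POW_zero C X
  | succ k ih => rw [Nat.cast_succ]; exact POW_add C X _ _ ih (POW_one C X)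

theorem POW_odd (X : M2 R) (q : R) (hX : X * X = q • (1 : M2 R)) (m : ℕ) :
    X ^ (2 * m + 1) = q ^ m • X := by
  rw [pow_succ, pow_mul, pow_two, hX, smul_pow, one_pow, Matrix.smul_mul, one_mul]

end

theorem POW_row (hHAV : HAV_stmt) (hSQR : SQR_stmt) (hSQU : SQU_stmt) (hSUB : SUB_stmt)
    (hMOX : MOX_stmt) : POW_stmt := by
  intro p R _ _ _ _ _ _ J hp hp2 hS C X hC hX hXJ hXX g hg n
  have hAdm : Adm J (CX C X) := hMOX p R J hp hp2 hS C X hC hX hXJ hXX
  obtain ⟨hgS, hgN⟩ := (((hSUB p R J hp hp2 hS).2 (CX C X) hAdm).1 g).1 hg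
  obtain ⟨c, hc, hcX⟩ := hgN
  have hcX' : TH g = c • X := hcX.symm
  have hc' : c ∈ C := hc
  have hq : ⅟(2 : R) * Bf X X ∈ C := (hHAV p R J hp hp2 hS).2 C.toAddSubgroup hC _ hXX
  have hu : ⅟(2 : R) * Bf (TH g) (TH g) ∈ C := by
    have h1 : Bf (TH g) (TH g) ∈ C := by
      rw [hcX', Lib_smul_Bf, Lib_Bf_smul]
      exact C.mul_mem hc' (C.mul_mem hc' hXX)
    exact (hHAV p R J hp hp2 hS).2 C.toAddSubgroup hC _ h1
  have huJ : ⅟(2 : R) * Bf (TH g) (TH g) ∈ J := by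
    apply J.mul_mem_left
    rw [Lib_Bf]
    have he := Lib_TH_ent J g hgS
    exact J.add_mem (J.add_mem (J.mul_mem_left _ (he 0 0)) (J.mul_mem_left _ (he 1 0)))
      (J.add_mem (J.mul_mem_left _ (he 0 1)) (J.mul_mem_left _ (he 1 1)))
  obtain ⟨c0, hc0, hc0s, hc0S⟩ := hSQR p R J hp hp2 hS _ huJ
  have hc0C : c0 ∈ C := hc0S C.toAddSubgroup hC (fun x hx y hy => C.mul_mem hx hy) hu
  have ha : ht g - 1 = c0 := by
    apply (hSQU p R J hp hp2 hS).2 _ (Lib_ht_sub_one J g hgS) _ hc0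
    rw [hc0s, ← Lib_ht_sq J g hgS]
    ring
  have haC : ht g ∈ C := by
    have : ht g = c0 + 1 := by rw [← ha]; ring
    rw [this]
    exact C.add_mem hc0C C.one_mem
  set q : R := ⅟(2 : R) * Bf X X with hqd
  have hXq : X * X = q • (1 : M2 R) := Lib_sq X hX
  -- the p^n-th power
  have hodd : ∃ m : ℕ, p ^ n = 2 * m + 1 := by
    have h1 : Odd p := hp.odd_of_ne_two hp2
    obtain ⟨m, hm⟩ := h1.pow (n := n)
    exact ⟨m, hm⟩
  obtain ⟨m, hm⟩ := hodd
  have hm2 : (p ^ n - 1) / 2 = m := by omega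
  have hcomm : Commute (ht g • (1 : M2 R)) (c • X) := by
    show ht g • (1 : M2 R) * (c • X) = c • X * (ht g • (1 : M2 R))
    simp only [Matrix.smul_mul, Matrix.mul_smul, one_mul, mul_one]
    rw [smul_smul, smul_smul, mul_comm]
  have hexp := hcomm.add_pow_prime_pow_eq' hp n
  obtain ⟨α, hα, β, hβ, hr⟩ : POW_P C X (∑ k ∈ Finset.Ioo 0 (p ^ n),
      (ht g • (1 : M2 R)) ^ k * (c • X) ^ (p ^ n - k) * (((p ^ n).choose k / p : ℕ) : M2 R)) := by
    apply POW_sum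
    intro k _
    have h1 : POW_P C X (ht g • (1 : M2 R)) := ⟨ht g, haC, 0, C.zero_mem, by simp⟩
    have h2 : POW_P C X (c • X) := ⟨0, C.zero_mem, c, hc', by simp⟩
    exact POW_mul C X _ _ q hq hXq (POW_mul C X _ _ q hq hXq (POW_pow C X _ q hq hXq h1 k)
      (POW_pow C X _ q hq hXq h2 _)) (POW_cast C X _)
  have hg1 : ((g ^ (p ^ n) : GL (Fin 2) R) : M2 R) = (ht g • (1 : M2 R) + c • X) ^ (p ^ n) := by
    rw [Units.val_pow_eq_pow_val, Lib_decomp g, hcX']
  have hkey : ((g ^ (p ^ n) : GL (Fin 2) R) : M2 R)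
      = (ht g ^ (p ^ n) + (p : R) * α) • (1 : M2 R)
        + ((c ^ (p ^ n) * q ^ m) • X + ((p : R) * β) • X) := by
    rw [hg1, hexp, hr, smul_pow, one_pow, smul_pow]
    rw [show X ^ (p ^ n) = q ^ m • X by rw [hm]; exact POW_odd X q hXq m]
    have hpc : (p : M2 R) * (α • (1 : M2 R) + β • X) = ((p : R) * α) • (1 : M2 R)
        + ((p : R) * β) • X := by
      rw [← nsmul_eq_mul, nsmul_add, ← Nat.cast_smul_eq_nsmul R, ← Nat.cast_smul_eq_nsmul R,
        smul_smul, smul_smul]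
    rw [hpc, smul_smul, add_smul]
    abel
  have hTH : TH (g ^ (p ^ n)) = (c ^ (p ^ n) * q ^ m) • X + ((p : R) * β) • X := by
    show Th ((g ^ (p ^ n) : GL (Fin 2) R) : M2 R) = _
    rw [hkey, Lib_Th_add, Lib_Th_smul, Lib_Th_one, smul_zero, zero_add]
    apply Lib_Th_of_trace
    rw [Matrix.trace_add, Matrix.trace_smul, Matrix.trace_smul, hX]
    simp
  rw [hTH, hm2]
  have hmem : ∀ γ ∈ C, γ • X ∈ CX C X := fun γ hγ => ⟨γ, hγ, rfl⟩
  have t1 : ((p : R) * β) • X ∈ sN (p : R) (CX C X) := by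
    rw [mul_smul]
    exact ⟨β • X, hmem β hβ, rfl⟩
  have t2 : (c ^ (p ^ n) * q ^ m) • X ∈ sN (q ^ m) (CX C X) := by
    rw [mul_comm, mul_smul]
    exact ⟨c ^ (p ^ n) • X, hmem _ (C.pow_mem hc' _), rfl⟩
  rw [add_comm]
  exact AddSubgroup.add_mem_sup t1 t2

end Pool.Agent.PP2
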